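import Pool.Agent.H64.AG.Asm

/-!
# Co-countable convergence and function spaces of compact spaces

Let `X` be compact and let `E` be a set of continuous real functions which separates the points of
`X` and in which every uncountable family has, for every `ε > 0`, an uncountable subfamily that
converges up to `ε` to a continuous function at every point, countably many exceptions allowed.
Then `C_p(X)` is Lindelof, and every Hausdorff continuous image of `X` embeds in `C_p(Z)` for some
Tychonoff Lindelof space `Z`.
-/

set_option autoImplicit false

open Topology

namespace Pool.Agent.Results.MP_bff2e5_gt.CoCountable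

open Pool.Agent.H20.SL Pool.Agent.H64.AK Pool.Agent.H64.AG

theorem result (X : Type) [TopologicalSpace X] [CompactSpace X] (E : Set (X → ℝ)) (hE : Sep E)
    (hC : CoConv2 E) : LindelofSpace (Cp X) ∧ ∀ (X₁ : Type) [TopologicalSpace X₁] [T2Space X₁]
      (g : X → X₁), Continuous g → Function.Surjective g → InCpTychonoffLindelof X₁ :=
  ⟨lindelof_of_coConv2 X E hE hC, fun X₁ _ _ g hg hgs =>
    (Pool.Agent.H29.AK.img X X₁ g hg hgs (lindelof_of_coConv2 X E hE hC)).2⟩

end Pool.Agent.Results.MP_bff2e5_gt.CoCountable
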