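import Pool.Agent.H64.PF.Asm
import Pool.Agent.H64.PF.EMB
import Pool.Agent.H64.PF.QUO
import Pool.Agent.H19.PF.UNI
import Pool.Agent.H19.PF.PRJ
import Pool.Agent.H19.PF.FIN
import Pool.Agent.H19.PF.KNM
import Pool.Agent.H4.PF.ZOR
import Pool.Agent.H4.PF.MDL
import Pool.Agent.H4.PF.TOP
import Pool.Agent.H4.PF.KNE
import Pool.Agent.H54.PF.SRT
import Pool.Agent.H56.PF.LFT
import Pool.Agent.H56.PF.DWN
import Pool.Agent.H58.PF.AMA
import Pool.Agent.H58.PF.RFL
import Pool.Agent.H58.PF.PRP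
import Pool.Agent.H60.PF.DEN
import Pool.Agent.H60.PF.GEN
import Pool.Agent.H66.PF.CCP
import Pool.Agent.H92.PF.PER
import Pool.Agent.H33.SL.LUS

/-!
# Independence of Arhangelskii's question

A positive answer implies that every dominating family of functions `ℕ → ℕ` has more than `ℵ₁`
elements (so the continuum hypothesis fails), that there are no Lusin sets and that Suslin's
hypothesis holds; a negative answer implies that the proper forcing axiom fails.
-/

set_option autoImplicit false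

open Topology Cardinal Filter

namespace Pool.Agent.Results.MP_bff2e5_gt.Independence

open Pool.Agent.H20.SL Pool.Agent.H64.AK Pool.Agent.H64.AG Pool.Agent.H58.PF

theorem t_fin : T_FIN :=
  have hMDL := Pool.Agent.H4.PF.mdl
  have hTOP := Pool.Agent.H4.PF.top Pool.Agent.H4.PF.kne
  have hCLO := Pool.Agent.H66.PF.clo
  have hLFT := Pool.Agent.H56.PF.lft Pool.Agent.H19.PF.knm
  have hRFL := Pool.Agent.H58.PF.rfl' hLFT Pool.Agent.H56.PF.dwn Pool.Agent.H54.PF.srt
    Pool.Agent.H58.PF.ama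
  have hPRP := Pool.Agent.H58.PF.prp (Pool.Agent.H19.PF.prj hCLO) hMDL hTOP hRFL
  have hDEN := Pool.Agent.H60.PF.den hCLO hMDL hTOP
  Pool.Agent.H19.PF.fin Pool.Agent.H19.PF.uni Pool.Agent.H4.PF.zor
    (Pool.Agent.H60.PF.gen hPRP hDEN) Pool.Agent.H92.PF.per Pool.Agent.H64.PF.omn
    Pool.Agent.H64.PF.emb' Pool.Agent.H64.PF.quo

theorem result :
    (ArhangelskiiPositive →
      (∀ D : Set (ℕ → ℕ), (∀ f : ℕ → ℕ, ∃ g ∈ D, ∀ᶠ n in atTop, f n ≤ g n) → ℵ₁ < #D) ∧
      (∀ X : Set (ℕ → Bool), (∀ C : Set (ℕ → Bool), IsNowhereDense C → (X ∩ C).Countable) →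
        X.Countable) ∧
      SuslinHypothesis) ∧
    ((∃ (X : Type) (_ : TopologicalSpace X), CompactSpace X ∧ InCpLindelof X ∧
      ¬ (CT X ∧ LindelofSpace (Cp X) ∧
        ∀ F : Set X, IsClosed F → ∀ (X₁ : Type) [TopologicalSpace X₁] [T2Space X₁]
          (g : F → X₁), Continuous g → Function.Surjective g → InCpTychonoffLindelof X₁)) →
      ¬ PFA) := by
  refine ⟨fun hpos => ⟨fun D hD => ?_, fun X hX => ?_, ?_⟩, ?_⟩
  · exact dominating_large Pool.Agent.H29.SL.cl Pool.Agent.H97.SL.ct Pool.Agent.H70.SL.ctd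
      Pool.Agent.H33.SL.CAN.can Pool.Agent.H33.SL.BIU.biu hpos D hD
  · exact no_lusin Pool.Agent.H29.SL.cl Pool.Agent.H97.SL.ct Pool.Agent.H70.SL.ctd
      Pool.Agent.H33.SL.CAN.can Pool.Agent.H33.SL.LUS.lus hpos X hX
  · exact suslin Pool.Agent.H29.SL.cl Pool.Agent.H97.SL.ct Pool.Agent.H14.SL.norm hpos
  · rintro ⟨X, _, hc, hX, hneg⟩ hP
    exact hneg (Pool.Agent.H64.PF.pfa_positive t_fin Pool.Agent.H66.PF.ccp hP X hX)

end Pool.Agent.Results.MP_bff2e5_gt.Independence
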