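import Pool.Agent.H64.AG.Fin
import Pool.Agent.H64.AG.PRM
import Pool.Agent.H87.AG.GF

/-!
# Compact subspaces of function spaces of Lindelof spaces and Martin's axiom

Let `X` be a compact space which embeds in `C_p(Y)` for some Lindelof space `Y`. Then Martin's
axiom for `ℵ₁` dense sets fails, or the following are equivalent: `X` has countable tightness;
`C_p(X)` is Lindelof; every Hausdorff continuous image of every closed subspace of `X` embeds in
`C_p(Z)` for some Tychonoff Lindelof space `Z`.
-/

set_option autoImplicit false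

open Topology

namespace Pool.Agent.Results.MP_bff2e5_gt.MartinAxiom

open Pool.Agent.H20.SL Pool.Agent.H64.AK Pool.Agent.H64.AG

theorem result (X : Type) [TopologicalSpace X] [CompactSpace X] (hX : InCpLindelof X) :
    ¬ MA1 ∨ ((CT X ↔ LindelofSpace (Cp X)) ∧
      (CT X ↔ ∀ F : Set X, IsClosed F → ∀ (X₁ : Type) [TopologicalSpace X₁] [T2Space X₁]
        (g : F → X₁), Continuous g → Function.Surjective g → InCpTychonoffLindelof X₁)) :=
  final (prm Pool.Agent.H87.AG.gf cc' Pool.Agent.H47.AG.tp1 tp') Pool.Agent.H87.AG.gf X hX

end Pool.Agent.Results.MP_bff2e5_gt.MartinAxiom
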