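import Pool.Agent.H20.SL.Char2
import Pool.Agent.H29.SL.CL
import Pool.Agent.H97.SL.CT
import Pool.Agent.H70.SL.CTD

/-!
# Which one-point compactifications of trees embed in `C_p` of a Lindelof space

For a Hausdorff tree `T` of height at most `ω₁`, the one-point compactification of `T` with its
tree topology embeds in `C_p(Z)` for some Lindelof space `Z` if and only if every downward closed,
finitely branching subset of `T` with finitely many minimal elements is countable.
-/

set_option autoImplicit false

open Topology

namespace Pool.Agent.Results.MP_bff2e5_gt.TreeCompacta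

open Pool.Agent.H20.SL

theorem result (T : Type) [PartialOrder T] (hT : IsTree T) (hH : Haus T)
    (hI : ∀ t : T, (Set.Iic t).Countable) : InCpLindelof (XT T) ↔ FB T :=
  inCp_iff2 Pool.Agent.H29.SL.cl Pool.Agent.H97.SL.ct Pool.Agent.H70.SL.ctd hT hH hI

end Pool.Agent.Results.MP_bff2e5_gt.TreeCompacta
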